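import Pool.Agent.Helper97.G4.Chord
import Pool.Agent.Helper26.G4.Defs2
import Pool.Agent.Helper26.G4.Basic

/-!
# G4: the movement of the branch, far points

If `F` moves along the segment from `v` to `v'` less than the distance of `F u` from `F v`, the
difference of the two branches is the principal logarithm of `1 - s / z`, `s = F v' - F v`,
`z = F u - F v`.
-/

set_option autoImplicit false

namespace Pool.Agent.Helper97.G4

open MeasureTheory Set
open scoped Real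
open Pool.Agent.Helper26.G4 (Br Lb EE al Xh Lb_exp)
open Pool.Agent.Helper90.G2 (Fn)

theorem Lb_cont_v {F : ℂ → ℂ} {Λ : ℂ → ℂ → ℂ} (hΛ : Br F Λ) {u : ℂ} (hu : 0 < u.re) :
    ContinuousOn (fun w => Lb Λ w u) {w : ℂ | u.re < w.re ∧ |w.im - u.im| < 2 * π} := by
  unfold Lb
  refine ContinuousOn.add ?_ ?_
  · refine hΛ.cont.comp (f := fun w : ℂ => (w, u)) (by fun_prop) ?_
    intro w hw
    exact ⟨hu.trans hw.1, hu, hw.2⟩
  · refine ContinuousOn.clog (by fun_prop) ?_
    intro w hw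
    refine Or.inl ?_
    rw [Complex.sub_re]
    linarith [hw.1]

theorem far_log {F : ℂ → ℂ} {Λ : ℂ → ℂ → ℂ} (hΛ : Br F Λ) {u v v' : ℂ} (hu : 0 < u.re)
    (h : ∀ w ∈ segment ℝ v v', u.re < w.re ∧ |w.im - u.im| < 2 * π ∧
      ‖F w - F v‖ < ‖F u - F v‖) :
    Lb Λ v' u - Lb Λ v u = Complex.log (1 - (F v' - F v) / (F u - F v)) := by
  have hπ := Real.pi_gt_three
  have hv : v ∈ segment ℝ v v' := left_mem_segment ℝ v v'
  have hv' : v' ∈ segment ℝ v v' := right_mem_segment ℝ v v'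
  obtain ⟨w, hw⟩ : ∃ w : ℝ → ℂ, w = fun x : ℝ => v + (x : ℂ) * (v' - v) := ⟨_, rfl⟩
  have hws : ∀ x ∈ Icc (0:ℝ) 1, w x ∈ segment ℝ v v' := by
    intro x hx
    rw [segment_eq_image']
    refine ⟨x, hx, ?_⟩
    rw [hw]
    simp [Complex.real_smul]
  have hwc : Continuous w := by
    rw [hw]
    fun_prop
  have hw0 : w 0 = v := by rw [hw]; simp
  have hw1 : w 1 = v' := by rw [hw]; simp
  have hz : 0 < ‖F u - F v‖ := by
    have := (h v hv).2.2
    rwa [sub_self, norm_zero] at this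
  have hz0 : F u - F v ≠ 0 := norm_pos_iff.1 hz
  obtain ⟨f, hf⟩ : ∃ f : ℝ → ℂ, f = fun x => Lb Λ (w x) u - Lb Λ v u := ⟨_, rfl⟩
  have hfc : ContinuousOn f (Icc 0 1) := by
    rw [hf]
    refine ContinuousOn.sub ?_ continuousOn_const
    refine (Lb_cont_v hΛ hu).comp hwc.continuousOn ?_
    intro x hx
    exact ⟨(h _ (hws x hx)).1, (h _ (hws x hx)).2.1⟩
  have hfe : ∀ x ∈ Icc (0:ℝ) 1, Complex.exp (f x) = 1 - (F (w x) - F v) / (F u - F v) := by
    intro x hx
    have h1 := h _ (hws x hx)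
    rw [hf]
    show Complex.exp (Lb Λ (w x) u - Lb Λ v u) = _
    rw [Complex.exp_sub, Lb_exp hΛ hu h1.1 h1.2.1, Lb_exp hΛ hu (h v hv).1 (h v hv).2.1]
    have e : F v - F u ≠ 0 := by
      rw [← neg_sub]
      exact neg_ne_zero.2 hz0
    field_simp
    ring
  have hre : ∀ x ∈ Icc (0:ℝ) 1, 0 < Real.cos (f x).im := by
    intro x hx
    have h1 := (h _ (hws x hx)).2.2
    have h2 := hp_cos (hfe x hx)
    have h3 : |((F (w x) - F v) / (F u - F v)).re| < 1 := by
      refine (Complex.abs_re_le_norm _).trans_lt ?_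
      rw [norm_div, div_lt_one hz]
      exact h1
    rw [Complex.sub_re, Complex.one_re] at h2
    by_contra hh
    push Not at hh
    have h4 := mul_nonpos_of_nonneg_of_nonpos (Real.exp_pos (f x).re).le hh
    have h5 := (abs_lt.1 h3).2
    linarith
  have h01 : (0:ℝ) ≤ 1 := zero_le_one
  have him : |(f 1).im| < π / 2 := by
    refine stay_small (θ := fun x => (f x).im) (p := 0) (q := 1) ?_ ?_ ?_
    · rw [uIcc_of_le h01]
      exact Complex.continuous_im.comp_continuousOn hfc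
    · rw [uIcc_of_le h01]
      exact hre
    · rw [hf]
      simp only [hw0, sub_self, Complex.zero_im, abs_zero]
      positivity
  have h6 := Complex.log_exp (x := f 1) (by linarith [(abs_lt.1 him).1])
    (by linarith [(abs_lt.1 him).2])
  rw [hfe 1 ⟨h01, le_rfl⟩, hw1] at h6
  rw [h6, hf]
  simp only [hw1]

/-- `|log (1 - x) + x| ≤ |x|²` for `|x| ≤ 1/2` -/
theorem log_quad {x : ℂ} (hx : ‖x‖ ≤ 1 / 2) : ‖Complex.log (1 - x) + x‖ ≤ ‖x‖ ^ 2 := by
  have h1 : ‖-x‖ < 1 := by rw [norm_neg]; linarith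
  have h2 := Complex.norm_log_one_add_sub_self_le (z := -x) h1
  rw [norm_neg] at h2
  have e : Complex.log (1 + -x) - -x = Complex.log (1 - x) + x := by
    rw [sub_neg_eq_add, ← sub_eq_add_neg]
  rw [e] at h2
  have h3 : (1 - ‖x‖)⁻¹ ≤ 2 := by
    rw [inv_le_comm₀ (by linarith) two_pos]
    linarith
  have h4 : 0 ≤ ‖x‖ ^ 2 := by positivity
  nlinarith

/-- the movement of the exponent, far points; `ω = τ / |τ|` or any `ω` with `τ = |τ| ω` -/
theorem far_al {F : ℂ → ℂ} {Λ : ℂ → ℂ → ℂ} (hΛ : Br F Λ) {τ ω u v v' : ℂ} {r B : ℝ}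
    (hτ : τ = ‖τ‖ * ω) (hu : 0 < u.re) (hr : 0 < r)
    (h : ∀ w ∈ segment ℝ v v', u.re < w.re ∧ |w.im - u.im| < 2 * π ∧ 2 * ‖F w - F v‖ ≤ r)
    (hz : r ≤ ‖F u - F v‖) :
    al Λ τ v' u - al Λ τ v u ≤ ‖τ‖ * Xh ω (F v' - F v) (F u - F v) r B := by
  have hz0 : 0 < ‖F u - F v‖ := hr.trans_le hz
  have h1 := far_log hΛ (v := v) (v' := v') hu (fun w hw => ⟨(h w hw).1, (h w hw).2.1, by
    have := (h w hw).2.2
    have := norm_nonneg (F w - F v)
    linarith⟩)
  have h2 : ‖(F v' - F v) / (F u - F v)‖ ≤ 1 / 2 := by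
    rw [norm_div, div_le_iff₀ hz0]
    have := (h v' (right_mem_segment ℝ v v')).2.2
    linarith
  have h3 := log_quad h2
  rw [← h1] at h3
  obtain ⟨s, hs⟩ : ∃ s : ℂ, s = F v' - F v := ⟨_, rfl⟩
  obtain ⟨z, hzz⟩ : ∃ z : ℂ, z = F u - F v := ⟨_, rfl⟩
  rw [← hs, ← hzz] at h3 ⊢
  rw [← hzz] at hz hz0
  unfold Xh al
  rw [if_neg (not_lt.2 hz)]
  have e1 : -(τ * Lb Λ v' u).re - -(τ * Lb Λ v u).re =
      ‖τ‖ * (ω * s / z).re - (τ * (Lb Λ v' u - Lb Λ v u + s / z)).re := by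
    have e2 : ‖τ‖ * (ω * s / z).re = (τ * (s / z)).re := by
      rw [← Complex.re_ofReal_mul]
      congr 1
      conv_rhs => rw [hτ]
      ring
    rw [e2, mul_add, mul_sub, Complex.add_re, Complex.sub_re]
    ring
  rw [e1]
  have h4 : -(τ * (Lb Λ v' u - Lb Λ v u + s / z)).re ≤ ‖τ‖ * (‖s‖ ^ 2 / ‖z‖ ^ 2) := by
    refine (neg_le_abs _).trans ((Complex.abs_re_le_norm _).trans ?_)
    rw [norm_mul]
    refine mul_le_mul_of_nonneg_left ?_ (norm_nonneg _)
    rw [norm_div, div_pow] at h3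
    exact h3
  linarith

/-- near points: the bound `B` of the movement -/
theorem near_al {F : ℂ → ℂ} {Λ : ℂ → ℂ → ℂ} {τ ω u v v' : ℂ} {r B : ℝ}
    (hB : ‖Lb Λ v' u - Lb Λ v u‖ ≤ B) (hz : ‖F u - F v‖ < r) :
    al Λ τ v' u - al Λ τ v u ≤ ‖τ‖ * Xh ω (F v' - F v) (F u - F v) r B := by
  unfold Xh al
  rw [if_pos hz]
  have e1 : -(τ * Lb Λ v' u).re - -(τ * Lb Λ v u).re = -(τ * (Lb Λ v' u - Lb Λ v u)).re := by
    rw [mul_sub, Complex.sub_re]
    ring
  rw [e1]
  refine (neg_le_abs _).trans ((Complex.abs_re_le_norm _).trans ?_)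
  rw [norm_mul]
  exact mul_le_mul_of_nonneg_left hB (norm_nonneg _)

/-- the elementary inequality of the step -/
theorem step_real {a a' δ X m B W : ℝ} (hδ : 0 ≤ δ) (h : a' - a ≤ δ * X) (hX : X ≤ B)
    (hB : m < X → a + δ * B ≤ W) :
    Real.exp a' ≤ Real.exp (δ * m) * Real.exp a + Real.exp W * (δ * max (X - m) 0) := by
  rcases le_or_gt X m with hm | hm
  · have h1 : Real.exp a' ≤ Real.exp (δ * m) * Real.exp a := by
      rw [← Real.exp_add]
      refine Real.exp_le_exp.2 ?_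
      have := mul_le_mul_of_nonneg_left hm hδ
      linarith
    have h2 : 0 ≤ Real.exp W * (δ * max (X - m) 0) := by
      have := le_max_right (X - m) 0
      positivity
    linarith
  · rw [max_eq_left (by linarith)]
    have h1 : Real.exp a' ≤ Real.exp (a + δ * X) := Real.exp_le_exp.2 (by linarith)
    have h2 : Real.exp (a + δ * X) - Real.exp (a + δ * m) ≤
        Real.exp (a + δ * X) * (δ * (X - m)) := by
      have h3 := Real.add_one_le_exp (-(δ * (X - m)))
      have h4 : Real.exp (a + δ * m) = Real.exp (a + δ * X) * Real.exp (-(δ * (X - m))) := by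
        rw [← Real.exp_add]
        congr 1
        ring
      rw [h4]
      have h5 := Real.exp_pos (a + δ * X)
      nlinarith
    have h6 : Real.exp (a + δ * X) ≤ Real.exp W := by
      refine Real.exp_le_exp.2 ?_
      have h7 := mul_le_mul_of_nonneg_left hX hδ
      have h8 := hB hm
      linarith
    have h9 : 0 ≤ δ * (X - m) := mul_nonneg hδ (by linarith)
    have h10 := mul_le_mul_of_nonneg_right h6 h9
    rw [← Real.exp_add (δ * m) a, add_comm (δ * m) a]
    linarith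

end Pool.Agent.Helper97.G4
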