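import Pool.Agent.Helper97.G4.Ret

/-!
# G4: the logarithm of the chord

`a : ℝ → ℂ` is an injective curve with `a' = - exp c`, `c` continuous, `c → 0` at infinity. There is a
continuous `L : ℝ × ℝ → ℂ` with `exp (L (t, s)) = (a t - a s) / (s - t)` off the diagonal,
`L (s, s) = c s`, and `im (L (t, s)) → 0` as `s → ∞` for every `t`.
-/

set_option autoImplicit false

namespace Pool.Agent.Helper97.G4

open Set MeasureTheory Filter
open scoped Real Topology

/-- the chord -/
noncomputable def chd (c : ℝ → ℂ) (q : ℝ × ℝ) : ℂ :=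
  ∫ x in (0:ℝ)..1, Complex.exp (c (q.1 + x * (q.2 - q.1)))

theorem chd_cont {c : ℝ → ℂ} (hc : Continuous c) : Continuous (chd c) := by
  unfold chd
  apply intervalIntegral.continuous_parametric_intervalIntegral_of_continuous'
  fun_prop

theorem chd_diag (c : ℝ → ℂ) (s : ℝ) : chd c (s, s) = Complex.exp (c s) := by
  unfold chd
  simp

theorem chd_mul {a c : ℝ → ℂ} (hc : Continuous c)
    (ha : ∀ s, HasDerivAt a (-Complex.exp (c s)) s) (t s : ℝ) :
    ((s : ℂ) - t) * chd c (t, s) = a t - a s := by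
  have h1 : ∫ x in t..s, Complex.exp (c x) = a t - a s := by
    have h2 := intervalIntegral.integral_eq_sub_of_hasDerivAt (f := fun x => -a x)
      (f' := fun x => Complex.exp (c x)) (a := t) (b := s)
      (fun x _ => by
        have := (ha x).neg
        rwa [neg_neg] at this)
      ((Complex.continuous_exp.comp hc).intervalIntegrable _ _)
    rw [h2]
    ring
  have h3 := intervalIntegral.smul_integral_comp_mul_add (a := (0:ℝ)) (b := 1)
    (fun x => Complex.exp (c x)) (s - t) t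
  rw [show (s - t) * 0 + t = t by ring, show (s - t) * 1 + t = s by ring, h1] at h3
  rw [← h3, Complex.real_smul]
  unfold chd
  congr 1
  · push_cast
    ring
  · refine intervalIntegral.integral_congr fun x _ => ?_
    show Complex.exp (c (t + x * (s - t))) = Complex.exp (c ((s - t) * x + t))
    congr 2
    ring

theorem chd_eq {a c : ℝ → ℂ} (hc : Continuous c)
    (ha : ∀ s, HasDerivAt a (-Complex.exp (c s)) s) {t s : ℝ} (hts : t ≠ s) :
    chd c (t, s) = (a t - a s) / ((s : ℂ) - t) := by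
  have h1 : ((s : ℂ) - t) ≠ 0 := by
    rw [sub_ne_zero]
    exact_mod_cast hts.symm
  rw [eq_div_iff h1, mul_comm]
  exact chd_mul hc ha t s

theorem chd_ne {a c : ℝ → ℂ} (hc : Continuous c)
    (ha : ∀ s, HasDerivAt a (-Complex.exp (c s)) s) (hi : ∀ t s, t ≠ s → a t ≠ a s) (q : ℝ × ℝ) :
    chd c q ≠ 0 := by
  obtain ⟨t, s⟩ := q
  by_cases h : t = s
  · rw [h, chd_diag]
    exact Complex.exp_ne_zero _
  · rw [chd_eq hc ha h]
    refine div_ne_zero (sub_ne_zero.2 (hi t s h)) ?_
    rw [sub_ne_zero]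
    exact_mod_cast (Ne.symm h)

/-- a continuous function with values in `2 π i ℤ` is constant -/
theorem log_const {f : ℝ → ℂ} (hf : Continuous f) (h1 : ∀ s, Complex.exp (f s) = 1) (h0 : f 0 = 0)
    (s : ℝ) : f s = 0 := by
  have hπ := Real.pi_pos
  have hre : ∀ x, (f x).re = 0 := by
    intro x
    have h2 := congrArg norm (h1 x)
    rw [Complex.norm_exp, norm_one, Real.exp_eq_one_iff] at h2
    exact h2
  have hcos : ∀ x, Real.cos (f x).im = 1 := by
    intro x
    have h2 := hp_cos (h1 x)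
    rw [hre, Real.exp_zero, one_mul, Complex.one_re] at h2
    exact h2.symm
  have hi : Continuous fun x => (f x).im := Complex.continuous_im.comp hf
  have h3 : |(f s).im| < π := by
    by_contra h
    push Not at h
    have h4 : π ∈ uIcc |(f 0).im| |(f s).im| := by
      rw [h0, Complex.zero_im, abs_zero, uIcc_of_le (abs_nonneg _)]
      exact ⟨hπ.le, h⟩
    obtain ⟨x, -, hx⟩ := intermediate_value_uIcc (f := fun x => |(f x).im|)
      (hi.abs.continuousOn (s := uIcc 0 s)) h4
    have h5 := hcos x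
    have hx' : |(f x).im| = π := hx
    rw [← Real.cos_abs, hx', Real.cos_pi] at h5
    norm_num at h5
  obtain ⟨n, hn⟩ := (Real.cos_eq_one_iff _).1 (hcos s)
  have h6 : n = 0 := by
    rw [← hn, abs_lt] at h3
    have c1 : (-1 : ℝ) < n := by
      by_contra h
      push Not at h
      nlinarith
    have c2 : (n : ℝ) < 1 := by
      by_contra h
      push Not at h
      nlinarith
    have c3 : -1 < n := by exact_mod_cast c1
    have c4 : n < 1 := by exact_mod_cast c2
    omega
  rw [h6] at hn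
  apply Complex.ext
  · rw [hre]; rfl
  · rw [← hn]; simp

/-- an angle with positive cosine stays between `-π/2` and `π/2` -/
theorem stay_small {θ : ℝ → ℝ} {p q : ℝ} (hθ : ContinuousOn θ (uIcc p q))
    (hc : ∀ x ∈ uIcc p q, 0 < Real.cos (θ x)) (h : |θ p| < π / 2) : |θ q| < π / 2 := by
  by_contra hh
  push Not at hh
  have h4 : π / 2 ∈ uIcc |θ p| |θ q| := by
    rw [uIcc_of_le (h.le.trans hh)]
    exact ⟨h.le, hh⟩
  obtain ⟨x, hx, hx2⟩ := intermediate_value_uIcc (f := fun x => |θ x|) hθ.abs h4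
  have h5 := hc x hx
  have hx' : |θ x| = π / 2 := hx2
  rw [← Real.cos_abs, hx', Real.cos_pi_div_two] at h5
  exact lt_irrefl _ h5

/-- near infinity the chord is near `1` -/
theorem chd_near {c : ℝ → ℂ} {T ε : ℝ} (h : ∀ x, T ≤ x → ‖Complex.exp (c x) - 1‖ ≤ ε)
    (hc : Continuous c) {t s : ℝ} (ht : T ≤ t) (hts : t ≤ s) : ‖chd c (t, s) - 1‖ ≤ ε := by
  have h1 : chd c (t, s) - 1 = ∫ x in (0:ℝ)..1, (Complex.exp (c (t + x * (s - t))) - 1) := by
    unfold chd
    rw [intervalIntegral.integral_sub]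
    · simp
    · exact (Complex.continuous_exp.comp (hc.comp (by fun_prop))).intervalIntegrable _ _
    · exact continuous_const.intervalIntegrable _ _
  rw [h1]
  have h2 := intervalIntegral.norm_integral_le_of_norm_le_const (a := (0:ℝ)) (b := 1) (C := ε)
    (f := fun x => Complex.exp (c (t + x * (s - t))) - 1) (by
      intro x hx
      rw [uIoc_of_le zero_le_one] at hx
      refine h _ ?_
      nlinarith [hx.1])
  simpa using h2

/-- the chord tends to `1`, uniformly for `x` in `[t, t₀]` -/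
theorem chd_lim {a c : ℝ → ℂ} (hc : Continuous c) (ha : ∀ s, HasDerivAt a (-Complex.exp (c s)) s)
    (hinf : Tendsto c atTop (𝓝 0)) {t t₀ ε : ℝ} (hε : 0 < ε) :
    ∃ S : ℝ, t₀ < S ∧ ∀ s, S ≤ s → ∀ x ∈ Icc t t₀, ‖chd c (x, s) - 1‖ ≤ ε := by
  have hac : Continuous a := continuous_iff_continuousAt.2 fun s => (ha s).continuousAt
  obtain ⟨b, hb⟩ : ∃ b : ℝ → ℂ, b = fun s => a s + s := ⟨_, rfl⟩
  have hbd : ∀ s, HasDerivAt b (1 - Complex.exp (c s)) s := by
    intro s
    rw [hb]
    have h1 := (ha s).add (Complex.ofRealCLM.hasDerivAt (x := s))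
    have e : -Complex.exp (c s) + Complex.ofRealCLM 1 = 1 - Complex.exp (c s) := by
      simp only [Complex.ofRealCLM_apply, Complex.ofReal_one]
      ring
    rw [e] at h1
    exact h1
  have hexp : Tendsto (fun s => Complex.exp (c s)) atTop (𝓝 1) := by
    have := (Complex.continuous_exp.tendsto 0).comp hinf
    rwa [Complex.exp_zero] at this
  obtain ⟨Y, hY⟩ : ∃ Y : ℝ, ∀ s, Y ≤ s → ‖1 - Complex.exp (c s)‖ ≤ ε / 4 := by
    have h1 := (Metric.tendsto_atTop.1 hexp) (ε / 4) (by positivity)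
    obtain ⟨Y, hY⟩ := h1
    refine ⟨Y, fun s hs => ?_⟩
    have := (hY s hs).le
    rw [dist_eq_norm] at this
    rwa [norm_sub_rev]
  -- bound of `b` on `[t, t₀]`
  have hbc : Continuous b := by
    rw [hb]
    exact hac.add Complex.continuous_ofReal
  obtain ⟨K, hK⟩ := (isCompact_Icc (a := t) (b := t₀)).exists_bound_of_continuousOn
    (f := b) hbc.continuousOn
  obtain ⟨S, hS⟩ : ∃ S : ℝ, S = max (max Y 0) (max (t₀ + 1) (2 * |t₀| +
    4 * (|K| + ‖b (max Y 0)‖) / ε + 1)) := ⟨_, rfl⟩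
  have hS1 : t₀ + 1 ≤ S := by rw [hS]; exact (le_max_left _ _).trans (le_max_right _ _)
  have hS2 : max Y 0 ≤ S := by rw [hS]; exact le_max_left _ _
  have hS3 : 2 * |t₀| + 4 * (|K| + ‖b (max Y 0)‖) / ε + 1 ≤ S := by
    rw [hS]; exact (le_max_right _ _).trans (le_max_right _ _)
  refine ⟨S, by linarith, fun s hs x hx => ?_⟩
  have hxs : x < s := by linarith [hx.2]
  have h1 := chd_mul hc ha x s
  have hsx : ((s : ℂ) - x) ≠ 0 := by
    rw [sub_ne_zero]
    exact_mod_cast hxs.ne'
  have e1 : chd c (x, s) - 1 = (b x - b s) / ((s : ℂ) - x) := by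
    rw [eq_div_iff hsx, hb]
    linear_combination h1
  have e2 : ‖((s : ℂ) - x)‖ = s - x := by
    have : ((s : ℂ) - x) = ((s - x : ℝ) : ℂ) := by push_cast; ring
    rw [this, Complex.norm_real, Real.norm_eq_abs, abs_of_pos (by linarith)]
  rw [e1, norm_div, e2, div_le_iff₀ (by linarith)]
  have h2 : ‖b s - b (max Y 0)‖ ≤ ε / 4 * ‖s - max Y 0‖ := by
    refine (convex_Ici (max Y 0)).norm_image_sub_le_of_norm_hasDerivWithin_le
      (f := b) (f' := fun s => 1 - Complex.exp (c s)) (fun y _ => (hbd y).hasDerivWithinAt) ?_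
      (self_mem_Ici) (hS2.trans hs)
    intro y hy
    exact hY y ((le_max_left _ _).trans hy)
  have h3 : ‖s - max Y 0‖ ≤ s := by
    rw [Real.norm_eq_abs, abs_of_nonneg (by linarith)]
    linarith [le_max_right Y 0]
  have h4 : ‖b x - b s‖ ≤ |K| + ‖b (max Y 0)‖ + ε / 4 * s := by
    have g1 : ‖b x - b s‖ ≤ ‖b x‖ + ‖b s‖ := norm_sub_le _ _
    have g2 : ‖b s‖ ≤ ‖b s - b (max Y 0)‖ + ‖b (max Y 0)‖ := by
      have := norm_add_le (b s - b (max Y 0)) (b (max Y 0))
      rwa [sub_add_cancel] at this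
    have g3 := hK x hx
    have g4 := le_abs_self K
    have g5 : ε / 4 * ‖s - max Y 0‖ ≤ ε / 4 * s := mul_le_mul_of_nonneg_left h3 (by positivity)
    linarith
  have h5 : 4 * (|K| + ‖b (max Y 0)‖) / ε ≤ s := by
    have := abs_nonneg t₀
    linarith
  have h6 : |K| + ‖b (max Y 0)‖ ≤ ε / 4 * s := by
    rw [div_le_iff₀ hε] at h5
    linarith
  have h7 : s / 2 ≤ s - x := by
    have g1 := le_abs_self t₀
    have g2 : 0 ≤ 4 * (|K| + ‖b (max Y 0)‖) / ε := by positivity
    linarith [hx.2]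
  nlinarith

/-- the logarithm of the chord -/
theorem chord {a c : ℝ → ℂ} (hc : Continuous c) (ha : ∀ s, HasDerivAt a (-Complex.exp (c s)) s)
    (hi : ∀ t s, t ≠ s → a t ≠ a s) (hinf : Tendsto c atTop (𝓝 0)) :
    ∃ L : ℝ × ℝ → ℂ, Continuous L ∧ (∀ q, Complex.exp (L q) = chd c q) ∧
      (∀ t s, t ≠ s → Complex.exp (L (t, s)) = (a t - a s) / ((s : ℂ) - t)) ∧
      (∀ s, L (s, s) = c s) ∧ ∀ t, Tendsto (fun s => (L (t, s)).im) atTop (𝓝 0) := by
  have hπ := Real.pi_gt_three
  obtain ⟨l, hl, hle⟩ := exists_log (chd_cont hc) (chd_ne hc ha hi)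
  obtain ⟨n, hn⟩ : ∃ n : ℤ, l (0, 0) = c 0 + n * (2 * π * Complex.I) := by
    have h1 := hle (0, 0)
    rw [chd_diag] at h1
    exact Complex.exp_eq_exp_iff_exists_int.1 h1
  obtain ⟨L, hL⟩ : ∃ L : ℝ × ℝ → ℂ, L = fun q => l q - n * (2 * π * Complex.I) := ⟨_, rfl⟩
  have hLc : Continuous L := by
    rw [hL]
    exact hl.sub continuous_const
  have hLe : ∀ q, Complex.exp (L q) = chd c q := by
    intro q
    rw [hL]
    show Complex.exp (l q - n * (2 * π * Complex.I)) = _
    rw [Complex.exp_sub, Complex.exp_int_mul_two_pi_mul_I, div_one, hle]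
  have hLd : ∀ s, L (s, s) = c s := by
    intro s
    have h1 := log_const (f := fun s => L (s, s) - c s) (by fun_prop)
      (by
        intro x
        show Complex.exp (L (x, x) - c x) = 1
        rw [Complex.exp_sub, hLe, chd_diag, div_self (Complex.exp_ne_zero _)])
      (by
        show L (0, 0) - c 0 = 0
        rw [hL]
        show l (0, 0) - n * (2 * π * Complex.I) - c 0 = 0
        rw [hn]
        ring) s
    exact sub_eq_zero.1 h1
  refine ⟨L, hLc, hLe, fun t s hts => by rw [hLe, chd_eq hc ha hts], hLd, fun t => ?_⟩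
  -- positive real part
  have hpos : ∀ {z l : ℂ}, ‖z - 1‖ ≤ 1 / 2 → Complex.exp l = z → 0 < Real.cos l.im := by
    intro z l hz h
    have h1 := hp_cos h
    have h2 : |(z - 1).re| ≤ 1 / 2 := (Complex.abs_re_le_norm _).trans hz
    rw [Complex.sub_re, Complex.one_re, abs_le] at h2
    by_contra hh
    push Not at hh
    have := mul_nonpos_of_nonneg_of_nonpos (Real.exp_pos l.re).le hh
    linarith [h2.1]
  have hexp : Tendsto (fun s => Complex.exp (c s)) atTop (𝓝 1) := by
    have := (Complex.continuous_exp.tendsto 0).comp hinf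
    rwa [Complex.exp_zero] at this
  obtain ⟨T₁, hT₁⟩ := (Metric.tendsto_atTop.1 hexp) (1 / 2) (by norm_num)
  obtain ⟨T₂, hT₂⟩ := (Metric.tendsto_atTop.1 hinf) 1 one_pos
  obtain ⟨t₀, ht₀⟩ : ∃ t₀ : ℝ, t₀ = max t (max T₁ T₂) := ⟨_, rfl⟩
  have h01 : t ≤ t₀ := by rw [ht₀]; exact le_max_left _ _
  have h02 : T₁ ≤ t₀ := by rw [ht₀]; exact (le_max_left _ _).trans (le_max_right _ _)
  have h03 : T₂ ≤ t₀ := by rw [ht₀]; exact (le_max_right _ _).trans (le_max_right _ _)
  have hstart : |(L (t₀, t₀)).im| < π / 2 := by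
    rw [hLd]
    have h1 := hT₂ t₀ h03
    rw [dist_eq_norm, sub_zero] at h1
    have := Complex.abs_im_le_norm (c t₀)
    linarith
  have hrow : ∀ s, t₀ ≤ s → |(L (t₀, s)).im| < π / 2 := by
    intro s hs
    refine stay_small (θ := fun s => (L (t₀, s)).im) (p := t₀) (q := s)
      (Complex.continuous_im.comp (hLc.comp (by fun_prop))).continuousOn ?_ hstart
    intro x hx
    rw [uIcc_of_le hs] at hx
    refine hpos (chd_near (T := t₀) (fun y hy => ?_) hc le_rfl hx.1) (hLe (t₀, x))
    have := (hT₁ y (h02.trans hy)).le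
    rwa [dist_eq_norm] at this
  obtain ⟨S, hS0, hS⟩ := chd_lim (t := t) (t₀ := t₀) (ε := 1 / 2) hc ha hinf (by norm_num)
  have hcol : ∀ s, S ≤ s → |(L (t, s)).im| < π / 2 := by
    intro s hs
    refine stay_small (θ := fun x => (L (x, s)).im) (p := t₀) (q := t)
      (Complex.continuous_im.comp (hLc.comp (by fun_prop))).continuousOn ?_
      (hrow s (hS0.le.trans hs))
    intro x hx
    rw [uIcc_of_ge h01] at hx
    exact hpos (hS s hs x hx) (hLe (x, s))
  have hlim : Tendsto (fun s => chd c (t, s)) atTop (𝓝 1) := by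
    rw [Metric.tendsto_atTop]
    intro ε hε
    obtain ⟨S', -, hS'⟩ := chd_lim (t := t) (t₀ := t) (ε := ε / 2) hc ha hinf (by positivity)
    refine ⟨S', fun s hs => ?_⟩
    rw [dist_eq_norm]
    have := hS' s hs t ⟨le_rfl, le_rfl⟩
    linarith
  have harg : Tendsto (fun s => Complex.arg (chd c (t, s))) atTop (𝓝 0) := by
    have h1 := (Complex.continuousAt_arg (x := 1) (by simp)).tendsto.comp hlim
    rwa [Complex.arg_one] at h1
  refine harg.congr' ?_
  filter_upwards [eventually_ge_atTop S] with s hs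
  have h1 := hcol s hs
  rw [abs_lt] at h1
  have h2 := Complex.log_exp (x := L (t, s)) (by linarith [h1.1]) (by linarith [h1.2])
  rw [← Complex.log_im, ← hLe, h2]

end Pool.Agent.Helper97.G4
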