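import Mathlib

/-!
# G4: the linear excess and the quadratic term

`exc_lin`: the integral of `(re (b / z) - β)_+` is at most `π |b|² / (4 β)` (layer cake: the set
`re (b / z) > μ` is the disc of radius `|b| / (2 μ)` around `b / (2 μ)`).
`exc_quad`: the integral of `|z|^(-2)` over `r₀ ≤ |z| ≤ r₁` is `2 π log (r₁ / r₀)`.
-/

set_option autoImplicit false

namespace Pool.Agent.Helper97.G4

open MeasureTheory Set
open scoped Real

theorem exc_set {b : ℂ} {μ : ℝ} (hμ : 0 < μ) :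
    {z : ℂ | μ < (b / z).re} ⊆ Metric.ball (b / (2 * μ)) (‖b‖ / (2 * μ)) := by
  intro z hz
  have hz' : μ < (b / z).re := hz
  have hz0 : z ≠ 0 := by
    intro h
    rw [h, div_zero, Complex.zero_re] at hz'
    linarith
  have hn : 0 < Complex.normSq z := Complex.normSq_pos.2 hz0
  rw [Metric.mem_ball, dist_eq_norm]
  have e1 : (b / z).re = (b.re * z.re + b.im * z.im) / Complex.normSq z := by
    rw [Complex.div_re]
    ring
  rw [e1, lt_div_iff₀ hn, Complex.normSq_apply] at hz'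
  have h2 : ‖z - b / (2 * μ)‖ ^ 2 < (‖b‖ / (2 * μ)) ^ 2 := by
    have e2 : (b / (2 * μ)).re = b.re / (2 * μ) ∧ (b / (2 * μ)).im = b.im / (2 * μ) := by
      have : (2 * (μ : ℂ)) = ((2 * μ : ℝ) : ℂ) := by push_cast; ring
      rw [this]
      exact ⟨Complex.div_ofReal_re _ _, Complex.div_ofReal_im _ _⟩
    rw [div_pow, Complex.sq_norm, Complex.sq_norm, Complex.normSq_apply, Complex.normSq_apply,
      Complex.sub_re, Complex.sub_im, e2.1, e2.2]
    have e3 : (z.re - b.re / (2 * μ)) * (z.re - b.re / (2 * μ)) +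
        (z.im - b.im / (2 * μ)) * (z.im - b.im / (2 * μ)) -
        (b.re * b.re + b.im * b.im) / (2 * μ) ^ 2 =
        (μ * (z.re * z.re + z.im * z.im) - (b.re * z.re + b.im * z.im)) / μ := by
      field_simp
      ring
    have h3 : (μ * (z.re * z.re + z.im * z.im) - (b.re * z.re + b.im * z.im)) / μ < 0 :=
      div_neg_of_neg_of_pos (by linarith) hμ
    linarith
  exact lt_of_pow_lt_pow_left₀ 2 (by positivity) h2

theorem exc_vol {b : ℂ} {μ : ℝ} (hμ : 0 < μ) :
    volume {z : ℂ | μ < (b / z).re} ≤ ENNReal.ofReal (π * ‖b‖ ^ 2 / 4 * μ ^ (-2 : ℝ)) := by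
  refine (measure_mono (exc_set hμ)).trans (le_of_eq ?_)
  have h2 : ((NNReal.pi : NNReal) : ENNReal) = ENNReal.ofReal Real.pi := by
    rw [← NNReal.coe_real_pi, ENNReal.ofReal_coe_nnreal]
  rw [Complex.volume_ball, h2, ← ENNReal.ofReal_pow (by positivity),
    ← ENNReal.ofReal_mul (by positivity)]
  congr 1
  have h5 : μ ^ (-2 : ℝ) = 1 / μ ^ 2 := by
    rw [show (-2 : ℝ) = -((2 : ℕ) : ℝ) by norm_num, Real.rpow_neg hμ.le, Real.rpow_natCast,
      one_div]
  rw [h5]
  field_simp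
  ring

theorem exc_lin (b : ℂ) {β : ℝ} (hβ : 0 < β) :
    ∫⁻ z : ℂ, ENNReal.ofReal (max ((b / z).re - β) 0) ≤ ENNReal.ofReal (π * ‖b‖ ^ 2 / (4 * β)) := by
  have hL : Measurable fun z : ℂ => max ((b / z).re - β) 0 := by fun_prop
  rw [lintegral_eq_lintegral_meas_lt volume (f := fun z : ℂ => max ((b / z).re - β) 0)
    (Filter.Eventually.of_forall fun w => le_max_right _ _) hL.aemeasurable]
  have h2 : ∀ t ∈ Ioi (0 : ℝ), volume {a : ℂ | t < max ((b / a).re - β) 0} ≤
      ENNReal.ofReal (π * ‖b‖ ^ 2 / 4 * (t + β) ^ (-2 : ℝ)) := by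
    intro t ht
    have ht0 : 0 < t := ht
    refine (measure_mono ?_).trans (exc_vol (b := b) (μ := t + β) (by linarith))
    intro a ha
    rw [mem_ofPred_eq] at ha ⊢
    rcases lt_max_iff.mp ha with h | h
    · linarith
    · linarith
  refine (setLIntegral_mono' measurableSet_Ioi h2).trans (le_of_eq ?_)
  rw [← ofReal_integral_eq_lintegral_ofReal
    ((integrableOn_add_rpow_Ioi_of_lt (by norm_num) (by linarith)).const_mul _)
    ((ae_restrict_iff' measurableSet_Ioi).2 (Filter.Eventually.of_forall fun t ht => by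
      have ht0 : (0 : ℝ) < t := ht
      positivity))]
  congr 1
  rw [integral_const_mul]
  have h3 : ∫ t in Ioi (0 : ℝ), (t + β) ^ (-2 : ℝ) = 1 / β := by
    have h4 : ∫ t in Ioi (0 : ℝ), (t + β) ^ (-2 : ℝ) = ∫ t in Ioi β, t ^ (-2 : ℝ) := by
      rw [← integral_indicator measurableSet_Ioi, ← integral_indicator measurableSet_Ioi,
        ← integral_add_right_eq_self ((Ioi β).indicator fun t : ℝ => t ^ (-2 : ℝ)) β]
      refine integral_congr_ae (Filter.Eventually.of_forall fun t => ?_)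
      by_cases ht : 0 < t
      · have ht' : β < t + β := by linarith
        simp only [indicator, mem_Ioi, ht, ht', if_true]
      · have ht' : ¬ β < t + β := by linarith
        simp only [indicator, mem_Ioi, ht, ht', if_false]
    rw [h4, integral_Ioi_rpow_of_lt (by norm_num) hβ]
    rw [show (-2 : ℝ) + 1 = -1 by norm_num, Real.rpow_neg_one]
    field_simp
  rw [h3]
  field_simp

theorem exc_quad {r₀ r₁ : ℝ} (h0 : 0 < r₀) (h1 : r₀ ≤ r₁) :
    ∫⁻ z in {z : ℂ | r₀ ≤ ‖z‖ ∧ ‖z‖ ≤ r₁}, ENNReal.ofReal (1 / ‖z‖ ^ 2) =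
      ENNReal.ofReal (2 * π * Real.log (r₁ / r₀)) := by
  have hπ := Real.pi_pos
  have hS : MeasurableSet {z : ℂ | r₀ ≤ ‖z‖ ∧ ‖z‖ ≤ r₁} :=
    (measurableSet_le measurable_const measurable_norm).inter
      (measurableSet_le measurable_norm measurable_const)
  rw [← lintegral_indicator hS, ← Complex.lintegral_comp_polarCoord_symm]
  have e1 : ∀ p ∈ polarCoord.target, ENNReal.ofReal p.1 •
      ({z : ℂ | r₀ ≤ ‖z‖ ∧ ‖z‖ ≤ r₁}.indicator (fun z : ℂ => ENNReal.ofReal (1 / ‖z‖ ^ 2)))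
        (Complex.polarCoord.symm p) =
      (Icc r₀ r₁).indicator (fun r : ℝ => ENNReal.ofReal (r⁻¹)) p.1 * 1 := by
    intro p hp
    have hp0 : 0 < p.1 := hp.1
    have hn : ‖Complex.polarCoord.symm p‖ = p.1 := by
      rw [Complex.norm_polarCoord_symm, abs_of_pos hp0]
    by_cases h : r₀ ≤ p.1 ∧ p.1 ≤ r₁
    · rw [indicator_of_mem (show Complex.polarCoord.symm p ∈ {z : ℂ | r₀ ≤ ‖z‖ ∧ ‖z‖ ≤ r₁} by
        rw [mem_ofPred_eq, hn]; exact h), indicator_of_mem (show p.1 ∈ Icc r₀ r₁ from h), hn,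
        smul_eq_mul, ← ENNReal.ofReal_mul hp0.le, mul_one]
      congr 1
      field_simp
    · rw [indicator_of_notMem (show Complex.polarCoord.symm p ∉
        {z : ℂ | r₀ ≤ ‖z‖ ∧ ‖z‖ ≤ r₁} by rw [mem_ofPred_eq, hn]; exact h),
        indicator_of_notMem (show p.1 ∉ Icc r₀ r₁ from h)]
      simp
  rw [setLIntegral_congr_fun (polarCoord.open_target.measurableSet) e1]
  have e2 : polarCoord.target = Ioi (0 : ℝ) ×ˢ Ioo (-π) π := rfl
  rw [e2, Measure.volume_eq_prod, ← Measure.prod_restrict,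
    lintegral_prod_mul (f := (Icc r₀ r₁).indicator (fun r : ℝ => ENNReal.ofReal (r⁻¹)))
      (g := fun _ => 1) ((Measurable.indicator (by fun_prop) measurableSet_Icc).aemeasurable)
      aemeasurable_const]
  rw [lintegral_indicator measurableSet_Icc, Measure.restrict_restrict measurableSet_Icc,
    inter_eq_left.2 (show Icc r₀ r₁ ⊆ Ioi 0 from fun x hx => lt_of_lt_of_le h0 hx.1)]
  simp only [lintegral_const, Measure.restrict_apply MeasurableSet.univ, univ_inter, one_mul,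
    Real.volume_Ioo]
  have e3 : ∫⁻ r in Icc r₀ r₁, ENNReal.ofReal (r⁻¹) = ENNReal.ofReal (Real.log (r₁ / r₀)) := by
    rw [← integral_inv_of_pos h0 (h0.trans_le h1), intervalIntegral.integral_of_le h1,
      ← integral_Icc_eq_integral_Ioc, ofReal_integral_eq_lintegral_ofReal]
    · refine ContinuousOn.integrableOn_Icc ?_
      exact continuousOn_inv₀.mono fun x hx => (lt_of_lt_of_le h0 hx.1).ne'
    · refine (ae_restrict_iff' measurableSet_Icc).2 (Filter.Eventually.of_forall fun x hx => ?_)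
      exact inv_nonneg.2 (h0.le.trans hx.1)
  rw [e3, ← ENNReal.ofReal_mul (Real.log_nonneg (by rw [le_div_iff₀ h0]; linarith))]
  congr 1
  ring

theorem exc_cube {r : ℝ} (h0 : 0 < r) :
    ∫⁻ z in {z : ℂ | r ≤ ‖z‖}, ENNReal.ofReal (1 / ‖z‖ ^ 3) = ENNReal.ofReal (2 * π / r) := by
  have hπ := Real.pi_pos
  have hS : MeasurableSet {z : ℂ | r ≤ ‖z‖} := measurableSet_le measurable_const measurable_norm
  rw [← lintegral_indicator hS, ← Complex.lintegral_comp_polarCoord_symm]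
  have e1 : ∀ p ∈ polarCoord.target, ENNReal.ofReal p.1 •
      ({z : ℂ | r ≤ ‖z‖}.indicator (fun z : ℂ => ENNReal.ofReal (1 / ‖z‖ ^ 3)))
        (Complex.polarCoord.symm p) =
      (Ici r).indicator (fun x : ℝ => ENNReal.ofReal (x ^ (-2 : ℝ))) p.1 * 1 := by
    intro p hp
    have hp0 : 0 < p.1 := hp.1
    have hn : ‖Complex.polarCoord.symm p‖ = p.1 := by
      rw [Complex.norm_polarCoord_symm, abs_of_pos hp0]
    by_cases h : r ≤ p.1
    · rw [indicator_of_mem (show Complex.polarCoord.symm p ∈ {z : ℂ | r ≤ ‖z‖} by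
        rw [mem_ofPred_eq, hn]; exact h), indicator_of_mem (show p.1 ∈ Ici r from h), hn,
        smul_eq_mul, ← ENNReal.ofReal_mul hp0.le, mul_one]
      congr 1
      rw [show (-2 : ℝ) = -((2 : ℕ) : ℝ) by norm_num, Real.rpow_neg hp0.le, Real.rpow_natCast]
      field_simp
    · rw [indicator_of_notMem (show Complex.polarCoord.symm p ∉
        {z : ℂ | r ≤ ‖z‖} by rw [mem_ofPred_eq, hn]; exact h),
        indicator_of_notMem (show p.1 ∉ Ici r from h)]
      simp
  rw [setLIntegral_congr_fun (polarCoord.open_target.measurableSet) e1]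
  have e2 : polarCoord.target = Ioi (0 : ℝ) ×ˢ Ioo (-π) π := rfl
  rw [e2, Measure.volume_eq_prod, ← Measure.prod_restrict,
    lintegral_prod_mul (f := (Ici r).indicator (fun x : ℝ => ENNReal.ofReal (x ^ (-2 : ℝ))))
      (g := fun _ => 1) ((Measurable.indicator (by fun_prop) measurableSet_Ici).aemeasurable)
      aemeasurable_const]
  rw [lintegral_indicator measurableSet_Ici, Measure.restrict_restrict measurableSet_Ici,
    inter_eq_left.2 (show Ici r ⊆ Ioi 0 from fun x hx => lt_of_lt_of_le h0 hx)]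
  simp only [lintegral_const, Measure.restrict_apply MeasurableSet.univ, univ_inter, one_mul,
    Real.volume_Ioo]
  have e3 : ∫⁻ x in Ici r, ENNReal.ofReal (x ^ (-2 : ℝ)) = ENNReal.ofReal (1 / r) := by
    have e4 : ∫ x in Ici r, x ^ (-2 : ℝ) = 1 / r := by
      rw [integral_Ici_eq_integral_Ioi, integral_Ioi_rpow_of_lt (by norm_num) h0,
        show (-2 : ℝ) + 1 = -1 by norm_num, Real.rpow_neg_one]
      field_simp
    rw [← e4, ofReal_integral_eq_lintegral_ofReal]
    · exact (integrableOn_Ici_iff_integrableOn_Ioi).2 (integrableOn_Ioi_rpow_of_lt (by norm_num) h0)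
    · refine (ae_restrict_iff' measurableSet_Ici).2 (Filter.Eventually.of_forall fun x hx => ?_)
      exact Real.rpow_nonneg (h0.le.trans hx) _
  rw [e3, ← ENNReal.ofReal_mul (by positivity)]
  congr 1
  ring

/-- `(Y - b)_+ ≤ Y^(3/2) b^(-1/2)` -/
theorem exc_pow {Y b : ℝ} (hY : 0 ≤ Y) (hb : 0 < b) : Y ^ 2 - b ≤ Y ^ 3 / √b := by
  have hs : 0 < √b := Real.sqrt_pos.2 hb
  have hs2 : √b ^ 2 = b := Real.sq_sqrt hb.le
  rw [le_div_iff₀ hs]
  obtain ⟨c, hc⟩ : ∃ c : ℝ, c = √b := ⟨_, rfl⟩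
  rw [← hc] at hs hs2 ⊢
  rw [← hs2]
  by_cases h : Y ≤ c
  · have h1 : Y ^ 2 - c ^ 2 ≤ 0 := by nlinarith
    have h2 : 0 ≤ Y ^ 3 := by positivity
    nlinarith
  · push Not at h
    nlinarith [mul_pos hs hs, mul_nonneg hY hY, sq_nonneg Y]

end Pool.Agent.Helper97.G4
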