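import Pool.Agent.Helper97.G4.Exc
import Pool.Agent.Helper26.G4.Defs2

/-!
# G4: the integral of the excess
-/

set_option autoImplicit false

namespace Pool.Agent.Helper97.G4

open MeasureTheory Set
open scoped Real
open Pool.Agent.Helper26.G4 (Xh Er)

theorem exc_pt {ω s z : ℂ} {r B ε m : ℝ} (hr : 0 < r) (hB : 0 ≤ B) (hε : 0 < ε) (hm : 0 < m) :
    max (Xh ω s z r B - m) 0 ≤ ({z : ℂ | ‖z‖ < r}.indicator (fun _ => B) z) +
      max ((ω * s / z).re - (1 - ε) * m) 0 +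
      ‖s‖ ^ 3 / √(ε * m) * ({z : ℂ | r ≤ ‖z‖}.indicator (fun z : ℂ => 1 / ‖z‖ ^ 3) z) := by
  have hem : 0 < ε * m := mul_pos hε hm
  have hs : 0 < √(ε * m) := Real.sqrt_pos.2 hem
  have h1 : 0 ≤ max ((ω * s / z).re - (1 - ε) * m) 0 := le_max_right _ _
  unfold Xh
  by_cases h : ‖z‖ < r
  · rw [if_pos h, indicator_of_mem (show z ∈ {z : ℂ | ‖z‖ < r} from h),
      indicator_of_notMem (show z ∉ {z : ℂ | r ≤ ‖z‖} from fun h' => absurd h (not_lt.2 h'))]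
    rw [max_le_iff]
    constructor <;> linarith
  · have h' : r ≤ ‖z‖ := not_lt.1 h
    have hz : 0 < ‖z‖ := hr.trans_le h'
    rw [if_neg h, indicator_of_notMem (show z ∉ {z : ℂ | ‖z‖ < r} from h),
      indicator_of_mem (show z ∈ {z : ℂ | r ≤ ‖z‖} from h')]
    have h2 := exc_pow (Y := ‖s‖ / ‖z‖) (b := ε * m) (by positivity) hem
    have h3 : (‖s‖ / ‖z‖) ^ 3 / √(ε * m) = ‖s‖ ^ 3 / √(ε * m) * (1 / ‖z‖ ^ 3) := by
      field_simp
    rw [h3, div_pow] at h2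
    have h4 := le_max_left ((ω * s / z).re - (1 - ε) * m) 0
    have h5 : 0 ≤ ‖s‖ ^ 3 / √(ε * m) * (1 / ‖z‖ ^ 3) := by positivity
    rw [max_le_iff]
    constructor <;> linarith

theorem exc_int {ω s : ℂ} {r B ε m : ℝ} (hω : ‖ω‖ ≤ 1) (hr : 0 < r) (hB : 0 ≤ B) (hε : 0 < ε)
    (hε1 : ε < 1) (hm : 0 < m) :
    ∫⁻ z : ℂ, ENNReal.ofReal (max (Xh ω s z r B - m) 0) ≤ ENNReal.ofReal (Er ε m ‖s‖ r B) := by
  have hπ := Real.pi_pos
  have hem : 0 < ε * m := mul_pos hε hm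
  have hsq : 0 < √(ε * m) := Real.sqrt_pos.2 hem
  have hβ : 0 < (1 - ε) * m := mul_pos (by linarith) hm
  have hS1 : MeasurableSet {z : ℂ | ‖z‖ < r} := measurableSet_lt measurable_norm measurable_const
  have hS2 : MeasurableSet {z : ℂ | r ≤ ‖z‖} := measurableSet_le measurable_const measurable_norm
  have hc : 0 ≤ ‖s‖ ^ 3 / √(ε * m) := by positivity
  have m1 : Measurable fun z : ℂ => ENNReal.ofReal ({z : ℂ | ‖z‖ < r}.indicator (fun _ => B) z) :=
    (measurable_const.indicator hS1).ennreal_ofReal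
  have m2 : Measurable fun z : ℂ =>
      ENNReal.ofReal (max ((ω * s / z).re - (1 - ε) * m) 0) := by fun_prop
  have i1 : ∫⁻ z : ℂ, ENNReal.ofReal ({z : ℂ | ‖z‖ < r}.indicator (fun _ => B) z) =
      ENNReal.ofReal (π * r ^ 2 * B) := by
    have e : (fun z : ℂ => ENNReal.ofReal ({z : ℂ | ‖z‖ < r}.indicator (fun _ => B) z)) =
        {z : ℂ | ‖z‖ < r}.indicator (fun _ => ENNReal.ofReal B) := by
      funext z
      by_cases h : z ∈ {z : ℂ | ‖z‖ < r}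
      · rw [indicator_of_mem h, indicator_of_mem h]
      · rw [indicator_of_notMem h, indicator_of_notMem h, ENNReal.ofReal_zero]
    have e2 : {z : ℂ | ‖z‖ < r} = Metric.ball 0 r := by
      ext z
      rw [Metric.mem_ball, dist_zero_right]
      rfl
    rw [e, lintegral_indicator_const hS1, e2, Complex.volume_ball]
    have h2 : ((NNReal.pi : NNReal) : ENNReal) = ENNReal.ofReal Real.pi := by
      rw [← NNReal.coe_real_pi, ENNReal.ofReal_coe_nnreal]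
    rw [h2, ← ENNReal.ofReal_pow hr.le, ← ENNReal.ofReal_mul (by positivity),
      ← ENNReal.ofReal_mul hB]
    congr 1
    ring
  have i2 : ∫⁻ z : ℂ, ENNReal.ofReal (max ((ω * s / z).re - (1 - ε) * m) 0) ≤
      ENNReal.ofReal (π * ‖s‖ ^ 2 / (4 * (1 - ε) * m)) := by
    refine (exc_lin (ω * s) hβ).trans (ENNReal.ofReal_le_ofReal ?_)
    have h1 : ‖ω * s‖ ^ 2 ≤ ‖s‖ ^ 2 := by
      rw [norm_mul]
      refine pow_le_pow_left₀ (by positivity) ?_ 2
      calc ‖ω‖ * ‖s‖ ≤ 1 * ‖s‖ := mul_le_mul_of_nonneg_right hω (norm_nonneg _)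
        _ = ‖s‖ := one_mul _
    rw [show 4 * ((1 - ε) * m) = 4 * (1 - ε) * m by ring]
    exact div_le_div_of_nonneg_right (mul_le_mul_of_nonneg_left h1 hπ.le) (by nlinarith)
  have i3 : ∫⁻ z : ℂ, ENNReal.ofReal (‖s‖ ^ 3 / √(ε * m) *
      ({z : ℂ | r ≤ ‖z‖}.indicator (fun z : ℂ => 1 / ‖z‖ ^ 3) z)) =
      ENNReal.ofReal (2 * π * ‖s‖ ^ 3 / (√(ε * m) * r)) := by
    have e : (fun z : ℂ => ENNReal.ofReal (‖s‖ ^ 3 / √(ε * m) *
        ({z : ℂ | r ≤ ‖z‖}.indicator (fun z : ℂ => 1 / ‖z‖ ^ 3) z))) =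
        fun z : ℂ => ENNReal.ofReal (‖s‖ ^ 3 / √(ε * m)) *
          ({z : ℂ | r ≤ ‖z‖}.indicator (fun z : ℂ => ENNReal.ofReal (1 / ‖z‖ ^ 3)) z) := by
      funext z
      rw [ENNReal.ofReal_mul hc]
      congr 1
      by_cases h : z ∈ {z : ℂ | r ≤ ‖z‖}
      · rw [indicator_of_mem h, indicator_of_mem h]
      · rw [indicator_of_notMem h, indicator_of_notMem h, ENNReal.ofReal_zero]
    rw [e, lintegral_const_mul' _ _ ENNReal.ofReal_ne_top, lintegral_indicator hS2, exc_cube hr,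
      ← ENNReal.ofReal_mul hc]
    congr 1
    field_simp
  have hle : ∀ z : ℂ, ENNReal.ofReal (max (Xh ω s z r B - m) 0) ≤
      (ENNReal.ofReal ({z : ℂ | ‖z‖ < r}.indicator (fun _ => B) z) +
        ENNReal.ofReal (max ((ω * s / z).re - (1 - ε) * m) 0)) +
      ENNReal.ofReal (‖s‖ ^ 3 / √(ε * m) *
        ({z : ℂ | r ≤ ‖z‖}.indicator (fun z : ℂ => 1 / ‖z‖ ^ 3) z)) := by
    intro z
    have n1 : 0 ≤ {z : ℂ | ‖z‖ < r}.indicator (fun _ => B) z :=
      indicator_nonneg (fun _ _ => hB) z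
    have n3 : 0 ≤ {z : ℂ | r ≤ ‖z‖}.indicator (fun z : ℂ => 1 / ‖z‖ ^ 3) z :=
      indicator_nonneg (fun _ _ => by positivity) z
    have n2 : 0 ≤ max ((ω * s / z).re - (1 - ε) * m) 0 := le_max_right _ _
    rw [← ENNReal.ofReal_add n1 n2, ← ENNReal.ofReal_add (add_nonneg n1 n2) (mul_nonneg hc n3)]
    exact ENNReal.ofReal_le_ofReal (exc_pt hr hB hε hm)
  refine (lintegral_mono hle).trans ?_
  have m12 : Measurable fun z : ℂ =>
      ENNReal.ofReal ({z : ℂ | ‖z‖ < r}.indicator (fun _ => B) z) +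
        ENNReal.ofReal (max ((ω * s / z).re - (1 - ε) * m) 0) := m1.add m2
  rw [lintegral_add_left m12, lintegral_add_left m1, i1, i3]
  unfold Er
  have n1 : 0 ≤ π * r ^ 2 * B := by positivity
  have n2 : 0 ≤ π * ‖s‖ ^ 2 / (4 * (1 - ε) * m) := by
    refine div_nonneg (by positivity) (by nlinarith)
  have n3 : 0 ≤ 2 * π * ‖s‖ ^ 3 / (√(ε * m) * r) := by positivity
  rw [ENNReal.ofReal_add (add_nonneg n1 n2) n3, ENNReal.ofReal_add n1 n2]
  gcongr

end Pool.Agent.Helper97.G4
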