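import Mathlib

/-!
# G4: the freeze lemma

`al k` are the values along the levels `0, …, K`; a level can be bad. If every bad level `k < K` has a
later level `k'` with `k + L ≤ k' ≤ K` and `|al k' - al k| ≤ L e`, there is a sequence `y` from `al 0`
to `al K` such that every step either increases by at most `e`, or starts at a level which is not bad
and follows `al`.
-/

set_option autoImplicit false

namespace Pool.Agent.Helper97.G4

theorem freeze {K L : ℕ} (hL : 1 ≤ L) {e : ℝ} (al : ℕ → ℝ) (bad : ℕ → Prop)
    (h : ∀ k < K, bad k → ∃ k' : ℕ, k + L ≤ k' ∧ k' ≤ K ∧ |al k' - al k| ≤ L * e) :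
    ∃ y : ℕ → ℝ, y 0 = al 0 ∧ y K = al K ∧ ∀ k < K,
      (y (k + 1) ≤ y k + e) ∨ (¬ bad k ∧ y k = al k ∧ y (k + 1) = al (k + 1)) := by
  classical
  have key : ∀ n k : ℕ, k ≤ K → K - k = n → ∃ y : ℕ → ℝ, y k = al k ∧ y K = al K ∧
      ∀ j, k ≤ j → j < K →
        (y (j + 1) ≤ y j + e) ∨ (¬ bad j ∧ y j = al j ∧ y (j + 1) = al (j + 1)) := by
    intro n
    induction n using Nat.strong_induction_on with
    | _ n ih =>
      intro k hk hn
      rcases Nat.eq_or_lt_of_le hk with hkK | hkK
      · exact ⟨al, rfl, rfl, fun j h1 h2 => by omega⟩
      by_cases hb : bad k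
      · obtain ⟨k', h1, h2, h3⟩ := h k hkK hb
        obtain ⟨y, y1, y2, y3⟩ := ih (K - k') (by omega) k' h2 rfl
        have hkk : k < k' := by omega
        have hd : (0 : ℝ) < (k' : ℝ) - k := by
          have : (k : ℝ) < k' := by exact_mod_cast hkk
          linarith
        have hLd : (L : ℝ) ≤ (k' : ℝ) - k := by
          have : ((k + L : ℕ) : ℝ) ≤ k' := by exact_mod_cast h1
          push_cast at this
          linarith
        have hL0 : (0 : ℝ) < L := by exact_mod_cast hL
        obtain ⟨σ, hσ⟩ : ∃ σ : ℝ, σ = (al k' - al k) / ((k' : ℝ) - k) := ⟨_, rfl⟩
        have hσe : σ ≤ e := by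
          rw [hσ, div_le_iff₀ hd]
          have g1 := le_abs_self (al k' - al k)
          have g2 := abs_nonneg (al k' - al k)
          have g3 : 0 ≤ e := by
            by_contra hh
            push Not at hh
            nlinarith
          nlinarith
        refine ⟨fun j => if j < k' then al k + ((j : ℝ) - k) * σ else y j, ?_, ?_, ?_⟩
        · simp [hkk]
        · have : ¬ K < k' := by omega
          simp [this, y2]
        · intro j hj1 hj2
          rcases lt_trichotomy (j + 1) k' with hj | hj | hj
          · left
            have c1 : j < k' := by omega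
            simp only [c1, hj, if_true]
            push_cast
            linarith
          · left
            have c1 : j < k' := by omega
            have c2 : ¬ j + 1 < k' := by omega
            simp only [c1, c2, if_true, if_false]
            rw [hj, y1]
            have e1 : al k' = al k + ((k' : ℝ) - k) * σ := by
              rw [hσ]
              field_simp
              ring
            have e2 : (k' : ℝ) = j + 1 := by
              rw [← hj]
              push_cast
              ring
            rw [e1, e2]
            linarith
          · have c1 : ¬ j < k' := by omega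
            have c2 : ¬ j + 1 < k' := by omega
            simp only [c1, c2, if_false]
            exact y3 j (by omega) hj2
      · obtain ⟨y, y1, y2, y3⟩ := ih (K - (k + 1)) (by omega) (k + 1) (by omega) rfl
        refine ⟨fun j => if j ≤ k then al j else y j, ?_, ?_, ?_⟩
        · simp
        · have : ¬ K ≤ k := by omega
          simp [this, y2]
        · intro j hj1 hj2
          rcases Nat.eq_or_lt_of_le hj1 with hj | hj
          · right
            subst hj
            have c1 : ¬ k + 1 ≤ k := by omega
            refine ⟨hb, ?_, ?_⟩
            · simp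
            · simp [y1]
          · have c1 : ¬ j ≤ k := by omega
            have c2 : ¬ j + 1 ≤ k := by omega
            simp only [c1, c2, if_false]
            exact y3 j (by omega) hj2
  obtain ⟨y, y1, y2, y3⟩ := key K 0 (Nat.zero_le _) (by omega)
  exact ⟨y, y1, y2, fun k hk => y3 k (Nat.zero_le _) hk⟩

end Pool.Agent.Helper97.G4
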