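import Mathlib

/-!
# G4: the half plane lemma

`a` is a curve in the closed half plane `re ≤ x` over `[b, b']`, its ends on the boundary line, and
disjoint from its translate by `2 π i`. Then the ends differ by at most `2 π`.
-/

set_option autoImplicit false

namespace Pool.Agent.Helper97.G4

open Set
open scoped Real

/-- a continuous angle with `cos ≤ 0` stays in one interval -/
theorem hp_stay {θ : ℝ → ℝ} {b b' : ℝ} (hbb : b ≤ b') (hθ : ContinuousOn θ (Icc b b'))
    (hc : ∀ s ∈ Icc b b', Real.cos (θ s) ≤ 0) :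
    ∃ k : ℤ, π / 2 + 2 * π * k ≤ θ b ∧ θ b ≤ 3 * π / 2 + 2 * π * k ∧
      π / 2 + 2 * π * k ≤ θ b' ∧ θ b' ≤ 3 * π / 2 + 2 * π * k := by
  have hπ := Real.pi_pos
  -- every value lies in one of the intervals
  have key : ∀ y : ℝ, Real.cos y ≤ 0 → ∃ k : ℤ, π / 2 + 2 * π * k ≤ y ∧ y ≤ 3 * π / 2 + 2 * π * k := by
    intro y hy
    obtain ⟨k, hk⟩ : ∃ k : ℤ, k = ⌊y / (2 * π)⌋ := ⟨_, rfl⟩
    have h1 : (k : ℝ) ≤ y / (2 * π) := by rw [hk]; exact Int.floor_le _
    have h2 : y / (2 * π) < k + 1 := by rw [hk]; exact Int.lt_floor_add_one _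
    rw [le_div_iff₀ (by positivity)] at h1
    rw [div_lt_iff₀ (by positivity)] at h2
    obtain ⟨z, hz⟩ : ∃ z : ℝ, z = y - 2 * π * k := ⟨_, rfl⟩
    have hcz : Real.cos z = Real.cos y := by
      rw [hz, show 2 * π * (k : ℝ) = k * (2 * π) by ring]
      exact Real.cos_sub_int_mul_two_pi y k
    have hz0 : 0 ≤ z := by rw [hz]; linarith
    have hz1 : z < 2 * π := by rw [hz]; linarith
    refine ⟨k, ?_, ?_⟩
    · by_contra h
      push Not at h
      have h3 : z < π / 2 := by rw [hz]; linarith
      have h4 : 0 < Real.cos z := Real.cos_pos_of_mem_Ioo ⟨by linarith, h3⟩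
      linarith
    · by_contra h
      push Not at h
      have h3 : 3 * π / 2 < z := by rw [hz]; linarith
      have h4 : 0 < Real.cos (z - 2 * π) :=
        Real.cos_pos_of_mem_Ioo ⟨by linarith, by linarith⟩
      rw [Real.cos_sub_two_pi] at h4
      linarith
  have hb : b ∈ Icc b b' := ⟨le_rfl, hbb⟩
  have hb' : b' ∈ Icc b b' := ⟨hbb, le_rfl⟩
  obtain ⟨k, hk1, hk2⟩ := key _ (hc b hb)
  obtain ⟨j, hj1, hj2⟩ := key _ (hc b' hb')
  have hkj : k = j := by
    rcases lt_trichotomy k j with h | h | h
    · exfalso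
      have h1 : (k : ℝ) + 1 ≤ j := by exact_mod_cast h
      have h2 : 2 * π * ((k : ℝ) + 1) ∈ Icc (θ b) (θ b') := by
        constructor
        · nlinarith
        · nlinarith
      obtain ⟨s, hs, hs2⟩ := intermediate_value_Icc hbb hθ h2
      have h3 := hc s hs
      rw [hs2] at h3
      have h4 : Real.cos (2 * π * ((k : ℝ) + 1)) = 1 := by
        rw [show 2 * π * ((k : ℝ) + 1) = ((k + 1 : ℤ) : ℝ) * (2 * π) by push_cast; ring]
        exact Real.cos_int_mul_two_pi _
      linarith
    · exact h
    · exfalso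
      have h1 : (j : ℝ) + 1 ≤ k := by exact_mod_cast h
      have h2 : 2 * π * (k : ℝ) ∈ Icc (θ b') (θ b) := by
        constructor
        · nlinarith
        · nlinarith
      obtain ⟨s, hs, hs2⟩ := intermediate_value_Icc' hbb hθ h2
      have h3 := hc s hs
      rw [hs2] at h3
      have h4 : Real.cos (2 * π * (k : ℝ)) = 1 := by
        rw [show 2 * π * (k : ℝ) = (k : ℝ) * (2 * π) by ring]
        exact Real.cos_int_mul_two_pi _
      linarith
  subst hkj
  exact ⟨k, hk1, hk2, hj1, hj2⟩

/-- from `-i` to `i` through the left half plane -/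
theorem hp_turn {θ : ℝ → ℝ} {b b' : ℝ} (hbb : b ≤ b') (hθ : ContinuousOn θ (Icc b b'))
    (hc : ∀ s ∈ Icc b b', Real.cos (θ s) ≤ 0) (h1 : Real.sin (θ b) = -1)
    (h2 : Real.sin (θ b') = 1) : θ b' = θ b - π := by
  have hπ := Real.pi_pos
  obtain ⟨k, a1, a2, a3, a4⟩ := hp_stay hbb hθ hc
  obtain ⟨i, hi⟩ := Real.sin_eq_neg_one_iff.1 h1
  obtain ⟨j, hj⟩ := Real.sin_eq_one_iff.1 h2
  have e1 : i = k + 1 := by
    have c1 : (k : ℝ) < i := by
      by_contra h
      push Not at h
      nlinarith
    have c2 : (i : ℝ) < k + 2 := by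
      by_contra h
      push Not at h
      nlinarith
    have c3 : k < i := by exact_mod_cast c1
    have c4 : i < k + 2 := by exact_mod_cast c2
    omega
  have e2 : j = k := by
    have c1 : (k : ℝ) - 1 < j := by
      by_contra h
      push Not at h
      nlinarith
    have c2 : (j : ℝ) < k + 1 := by
      by_contra h
      push Not at h
      nlinarith
    have c3 : k - 1 < j := by exact_mod_cast c1
    have c4 : j < k + 1 := by exact_mod_cast c2
    omega
  rw [← hi, ← hj, e1, e2]
  push_cast
  ring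

/-- from `-i` to `-i` through the left half plane -/
theorem hp_flat {θ : ℝ → ℝ} {b b' : ℝ} (hbb : b ≤ b') (hθ : ContinuousOn θ (Icc b b'))
    (hc : ∀ s ∈ Icc b b', Real.cos (θ s) ≤ 0) (h1 : Real.sin (θ b) = -1)
    (h2 : Real.sin (θ b') = -1) : θ b' = θ b := by
  have hπ := Real.pi_pos
  obtain ⟨k, a1, a2, a3, a4⟩ := hp_stay hbb hθ hc
  have gen : ∀ {y : ℝ} {i : ℤ}, -(π / 2) + i * (2 * π) = y → π / 2 + 2 * π * k ≤ y →
      y ≤ 3 * π / 2 + 2 * π * k → i = k + 1 := by
    intro y i hi b1 b2
    have c1 : (k : ℝ) < i := by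
      by_contra h
      push Not at h
      nlinarith
    have c2 : (i : ℝ) < k + 2 := by
      by_contra h
      push Not at h
      nlinarith
    have c3 : k < i := by exact_mod_cast c1
    have c4 : i < k + 2 := by exact_mod_cast c2
    omega
  obtain ⟨i, hi⟩ := Real.sin_eq_neg_one_iff.1 h1
  obtain ⟨j, hj⟩ := Real.sin_eq_neg_one_iff.1 h2
  have e1 := gen hi a1 a2
  have e2 := gen hj a3 a4
  rw [← hi, ← hj, e1, e2]

/-- a continuous logarithm on the plane `ℝ × ℝ` -/
theorem exists_log {X : Type*} [TopologicalSpace X] [LocallyPathConnectedSpace X]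
    [SimplyConnectedSpace X] {g : X → ℂ} (hg : Continuous g) (h0 : ∀ x, g x ≠ 0) :
    ∃ f : X → ℂ, Continuous f ∧ ∀ x, Complex.exp (f x) = g x := by
  obtain ⟨x₀⟩ : Nonempty X := inferInstance
  obtain ⟨f, ⟨-, hf⟩, -⟩ := Complex.isCoveringMapOn_exp.existsUnique_continuousMap_lifts
    ⟨g, hg⟩ (a₀ := x₀) (Complex.exp_log (h0 x₀)) (fun x => h0 x)
  exact ⟨f, f.continuous, fun x => congrFun hf x⟩

/-- the sign of the cosine of the argument -/
theorem hp_cos {l z : ℂ} (h : Complex.exp l = z) : z.re = Real.exp l.re * Real.cos l.im := by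
  rw [← h, Complex.exp_re]

theorem hp_sin {l z : ℂ} (h : Complex.exp l = z) : z.im = Real.exp l.re * Real.sin l.im := by
  rw [← h, Complex.exp_im]

theorem hp_down {l z : ℂ} (h : Complex.exp l = z) (hr : z.re = 0) (hi : z.im < 0) :
    Real.sin l.im = -1 := by
  have h1 := hp_cos h
  have h2 := hp_sin h
  have h3 := Real.exp_pos l.re
  have h4 : Real.cos l.im = 0 := by
    have : Real.exp l.re * Real.cos l.im = 0 := by rw [← h1, hr]
    rcases mul_eq_zero.1 this with h | h
    · linarith
    · exact h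
  have h5 : Real.sin l.im < 0 := by
    by_contra hh
    push Not at hh
    have := mul_nonneg h3.le hh
    linarith
  have h6 := Real.sin_sq_add_cos_sq l.im
  rw [h4] at h6
  nlinarith

theorem hp_up {l z : ℂ} (h : Complex.exp l = z) (hr : z.re = 0) (hi : 0 < z.im) :
    Real.sin l.im = 1 := by
  have h1 := hp_cos h
  have h2 := hp_sin h
  have h3 := Real.exp_pos l.re
  have h4 : Real.cos l.im = 0 := by
    have : Real.exp l.re * Real.cos l.im = 0 := by rw [← h1, hr]
    rcases mul_eq_zero.1 this with h | h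
    · linarith
    · exact h
  have h5 : 0 < Real.sin l.im := by
    by_contra hh
    push Not at hh
    have := mul_nonpos_of_nonneg_of_nonpos h3.le hh
    linarith
  have h6 := Real.sin_sq_add_cos_sq l.im
  rw [h4] at h6
  nlinarith

theorem hp_cos_le {l z : ℂ} (h : Complex.exp l = z) (hr : z.re ≤ 0) : Real.cos l.im ≤ 0 := by
  have h1 := hp_cos h
  have h3 := Real.exp_pos l.re
  by_contra hh
  push Not at hh
  have := mul_pos h3 hh
  linarith

theorem hp_cos_ge {l z : ℂ} (h : Complex.exp l = z) (hr : 0 ≤ z.re) : 0 ≤ Real.cos l.im := by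
  have h1 := hp_cos h
  have h3 := Real.exp_pos l.re
  by_contra hh
  push Not at hh
  have := mul_neg_of_pos_of_neg h3 hh
  linarith

/-- the half plane lemma -/
theorem hp {a : ℝ → ℂ} {b b' x : ℝ} (hbb : b ≤ b') (ha : ContinuousOn a (Icc b b'))
    (h1 : (a b).re = x) (h2 : (a b').re = x) (h : ∀ s ∈ Icc b b', (a s).re ≤ x)
    (hn : ∀ s ∈ Icc b b', ∀ s' ∈ Icc b b', a s - a s' ≠ 2 * π * Complex.I) :
    (a b').im - (a b).im ≤ 2 * π := by
  have hπ := Real.pi_pos
  by_contra hH
  push Not at hH
  have hb : b ∈ Icc b b' := ⟨le_rfl, hbb⟩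
  have hb' : b' ∈ Icc b b' := ⟨hbb, le_rfl⟩
  have ha2 : Continuous (fun s : ℝ => a (projIcc b b' hbb s)) :=
    (ha.domRestrict).comp continuous_projIcc
  obtain ⟨D, hD⟩ : ∃ D : ℝ × ℝ → ℂ, D = fun q => a (projIcc b b' hbb q.1) -
      a (projIcc b b' hbb q.2) - 2 * π * Complex.I := ⟨_, rfl⟩
  have hDc : Continuous D := by
    rw [hD]
    exact ((ha2.comp continuous_fst).sub (ha2.comp continuous_snd)).sub continuous_const
  have hD0 : ∀ q, D q ≠ 0 := by
    intro q
    rw [hD]
    exact sub_ne_zero.2 (hn _ (projIcc b b' hbb q.1).2 _ (projIcc b b' hbb q.2).2)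
  obtain ⟨l, hl, hle⟩ := exists_log hDc hD0
  have hre : (2 * (π : ℂ) * Complex.I).re = 0 := by simp
  have him : (2 * (π : ℂ) * Complex.I).im = 2 * π := by simp
  have hp1 : ∀ s ∈ Icc b b', ((projIcc b b' hbb s : Icc b b') : ℝ) = s := by
    intro s hs
    rw [projIcc_of_mem hbb hs]
  have e : ∀ s ∈ Icc b b', ∀ s' ∈ Icc b b', D (s, s') = a s - a s' - 2 * π * Complex.I := by
    intro s hs s' hs'
    rw [hD]
    show a (projIcc b b' hbb s) - a (projIcc b b' hbb s') - 2 * π * Complex.I = _
    rw [hp1 s hs, hp1 s' hs']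
  -- corners
  have c00r : (D (b, b)).re = 0 := by
    rw [e b hb b hb]; simp
  have c00i : (D (b, b)).im < 0 := by
    rw [e b hb b hb]
    simp only [Complex.sub_im, him]
    linarith
  have c10r : (D (b', b)).re = 0 := by
    rw [e b' hb' b hb]
    simp only [Complex.sub_re, hre]
    linarith
  have c10i : 0 < (D (b', b)).im := by
    rw [e b' hb' b hb]
    simp only [Complex.sub_im, him]
    linarith
  have c01r : (D (b, b')).re = 0 := by
    rw [e b hb b' hb']
    simp only [Complex.sub_re, hre]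
    linarith
  have c01i : (D (b, b')).im < 0 := by
    rw [e b hb b' hb']
    simp only [Complex.sub_im, him]
    linarith
  have c11r : (D (b', b')).re = 0 := by
    rw [e b' hb' b' hb']; simp
  have c11i : (D (b', b')).im < 0 := by
    rw [e b' hb' b' hb']
    simp only [Complex.sub_im, him]
    linarith
  -- sides
  have s1 : (l (b', b)).im = (l (b, b)).im - π := by
    refine hp_turn (θ := fun s => (l (s, b)).im) hbb
      (Complex.continuous_im.comp (hl.comp (by fun_prop))).continuousOn ?_
      (hp_down (hle (b, b)) c00r c00i) (hp_up (hle (b', b)) c10r c10i)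
    intro s hs
    refine hp_cos_le (hle (s, b)) ?_
    rw [e s hs b hb]
    simp only [Complex.sub_re, hre]
    linarith [h s hs]
  have s4 : (l (b', b')).im = (l (b, b')).im := by
    refine hp_flat (θ := fun s => (l (s, b')).im) hbb
      (Complex.continuous_im.comp (hl.comp (by fun_prop))).continuousOn ?_
      (hp_down (hle (b, b')) c01r c01i) (hp_down (hle (b', b')) c11r c11i)
    intro s hs
    refine hp_cos_le (hle (s, b')) ?_
    rw [e s hs b' hb']
    simp only [Complex.sub_re, hre]
    linarith [h s hs]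
  have s2 : (l (b', b')).im + π = (l (b', b)).im + π - π := by
    refine hp_turn (θ := fun s => (l (b', s)).im + π) hbb
      ((Complex.continuous_im.comp (hl.comp (by fun_prop))).add continuous_const).continuousOn ?_
      ?_ ?_
    · intro s hs
      show Real.cos ((l (b', s)).im + π) ≤ 0
      rw [Real.cos_add_pi]
      have := hp_cos_ge (hle (b', s)) (by
        rw [e b' hb' s hs]
        simp only [Complex.sub_re, hre]
        linarith [h s hs])
      linarith
    · show Real.sin ((l (b', b)).im + π) = -1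
      rw [Real.sin_add_pi, hp_up (hle (b', b)) c10r c10i]
    · show Real.sin ((l (b', b')).im + π) = 1
      rw [Real.sin_add_pi, hp_down (hle (b', b')) c11r c11i]
      norm_num
  have s3 : (l (b, b')).im = (l (b, b)).im := by
    have h5 := hp_stay (θ := fun s => (l (b, s)).im + π) hbb
      ((Complex.continuous_im.comp (hl.comp (by fun_prop))).add continuous_const).continuousOn ?_
    · obtain ⟨k, a1, a2, a3, a4⟩ := h5
      obtain ⟨i, hi⟩ := Real.sin_eq_neg_one_iff.1 (hp_down (hle (b, b)) c00r c00i)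
      obtain ⟨j, hj⟩ := Real.sin_eq_neg_one_iff.1 (hp_down (hle (b, b')) c01r c01i)
      have gen : ∀ {y : ℝ} {i : ℤ}, -(π / 2) + i * (2 * π) = y →
          π / 2 + 2 * π * k ≤ y + π → y + π ≤ 3 * π / 2 + 2 * π * k → i = k := by
        intro y i hi b1 b2
        have c1 : (k : ℝ) - 1 < i := by
          by_contra h
          push Not at h
          nlinarith
        have c2 : (i : ℝ) < k + 1 := by
          by_contra h
          push Not at h
          nlinarith
        have c3 : k - 1 < i := by exact_mod_cast c1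
        have c4 : i < k + 1 := by exact_mod_cast c2
        omega
      have e1 := gen hi a1 a2
      have e2 := gen hj a3 a4
      rw [← hi, ← hj, e1, e2]
    · intro s hs
      show Real.cos ((l (b, s)).im + π) ≤ 0
      rw [Real.cos_add_pi]
      have := hp_cos_ge (hle (b, s)) (by
        rw [e b hb s hs]
        simp only [Complex.sub_re, hre]
        linarith [h s hs])
      linarith
  linarith

end Pool.Agent.Helper97.G4
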