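import Pool.Agent.Helper97.G4.Hp

/-!
# G4: return to the height of the starting point

`l` is a continuous logarithm of the chord `(a t - a s) / (s - t)` for `s` in `[T, S]`. If its
imaginary part goes from at least `20 π` in absolute value to at most `2 π`, then the curve crosses the
vertical line through `a t`, at a point at distance at most `2 π` from `a t`.
-/

set_option autoImplicit false

namespace Pool.Agent.Helper97.G4

open Set
open scoped Real

/-- a crossing of the strip `[q, p]` downwards -/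
theorem cross {θ : ℝ → ℝ} {T S p q : ℝ} (hTS : T ≤ S) (hθ : ContinuousOn θ (Icc T S)) (hpq : q < p)
    (hT : p ≤ θ T) (hS : θ S ≤ q) :
    ∃ b b' : ℝ, T ≤ b ∧ b ≤ b' ∧ b' ≤ S ∧ θ b = p ∧ θ b' = q ∧
      ∀ s ∈ Icc b b', q ≤ θ s ∧ θ s ≤ p := by
  -- first time at level `q`
  obtain ⟨A1, hA1⟩ : ∃ A1 : Set ℝ, A1 = Icc T S ∩ θ ⁻¹' Iic q := ⟨_, rfl⟩
  have hA1c : IsClosed A1 := by
    rw [hA1]
    exact hθ.preimage_isClosed_of_isClosed isClosed_Icc isClosed_Iic
  have hA1k : IsCompact A1 := isCompact_Icc.of_isClosed_subset hA1c (by rw [hA1]; exact inter_subset_left)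
  have hA1n : A1.Nonempty := by
    rw [hA1]
    exact ⟨S, ⟨hTS, le_rfl⟩, hS⟩
  obtain ⟨b', hb'A, hb'l⟩ := hA1k.exists_isLeast hA1n
  have hb'1 : b' ∈ Icc T S := by rw [hA1] at hb'A; exact hb'A.1
  have hb'2 : θ b' ≤ q := by rw [hA1] at hb'A; exact hb'A.2
  have hb'3 : ∀ s ∈ Icc T b', s ≠ b' → q < θ s := by
    intro s hs hne
    by_contra h
    push Not at h
    have hsA : s ∈ A1 := by rw [hA1]; exact ⟨⟨hs.1, hs.2.trans hb'1.2⟩, h⟩
    exact hne (le_antisymm hs.2 (hb'l hsA))
  have hcb' : ContinuousOn θ (Icc T b') := hθ.mono (Icc_subset_Icc le_rfl hb'1.2)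
  have hb'4 : θ b' = q := by
    by_contra h
    have h1 : θ b' < q := lt_of_le_of_ne hb'2 h
    obtain ⟨s, hs, hs2⟩ := intermediate_value_Icc' hb'1.1 hcb'
      (show q ∈ Icc (θ b') (θ T) from ⟨hb'2, by linarith⟩)
    by_cases hsb : s = b'
    · rw [hsb] at hs2
      exact h hs2
    · have := hb'3 s hs hsb
      linarith
  -- last time at level `p`
  obtain ⟨A2, hA2⟩ : ∃ A2 : Set ℝ, A2 = Icc T b' ∩ θ ⁻¹' Ici p := ⟨_, rfl⟩
  have hA2c : IsClosed A2 := by
    rw [hA2]
    exact hcb'.preimage_isClosed_of_isClosed isClosed_Icc isClosed_Ici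
  have hA2k : IsCompact A2 := isCompact_Icc.of_isClosed_subset hA2c (by rw [hA2]; exact inter_subset_left)
  have hA2n : A2.Nonempty := by
    rw [hA2]
    exact ⟨T, ⟨le_rfl, hb'1.1⟩, hT⟩
  obtain ⟨b, hbA, hbg⟩ := hA2k.exists_isGreatest hA2n
  have hb1 : b ∈ Icc T b' := by rw [hA2] at hbA; exact hbA.1
  have hb2 : p ≤ θ b := by rw [hA2] at hbA; exact hbA.2
  have hb3 : ∀ s ∈ Icc b b', s ≠ b → θ s < p := by
    intro s hs hne
    by_contra h
    push Not at h
    have hsA : s ∈ A2 := by rw [hA2]; exact ⟨⟨hb1.1.trans hs.1, hs.2⟩, h⟩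
    exact hne (le_antisymm (hbg hsA) hs.1)
  have hb4 : θ b = p := by
    by_contra h
    have h1 : p < θ b := lt_of_le_of_ne hb2 (Ne.symm h)
    obtain ⟨s, hs, hs2⟩ := intermediate_value_Icc' hb1.2 (hcb'.mono (Icc_subset_Icc hb1.1 le_rfl))
      (show p ∈ Icc (θ b') (θ b) from ⟨by linarith, hb2⟩)
    by_cases hsb : s = b
    · rw [hsb] at hs2
      exact h hs2
    · have := hb3 s hs hsb
      linarith
  refine ⟨b, b', hb1.1, hb1.2, hb'1.2, hb4, hb'4, fun s hs => ⟨?_, ?_⟩⟩
  · by_cases h : s = b'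
    · rw [h, hb'4]
    · exact (hb'3 s ⟨hb1.1.trans hs.1, hs.2⟩ h).le
  · by_cases h : s = b
    · rw [h, hb4]
    · exact (hb3 s hs h).le

/-- sine and cosine of the argument of the chord -/
theorem ret_pos {a l : ℝ → ℂ} {t T S : ℝ} (htT : t < T) (hTS : T ≤ S)
    (ha : ContinuousOn a (Icc T S)) (hl : ContinuousOn l (Icc T S))
    (hle : ∀ s ∈ Icc T S, Complex.exp (l s) = (a t - a s) / ((s : ℂ) - t))
    (hT : 20 * π ≤ (l T).im) (hS : (l S).im ≤ 2 * π)
    (hn : ∀ s ∈ Icc T S, ∀ s' ∈ Icc T S, a s - a s' ≠ 2 * π * Complex.I) :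
    ∃ b ∈ Icc T S, (a b).re = (a t).re ∧ |(a b).im - (a t).im| ≤ 2 * π := by
  have hπ := Real.pi_pos
  obtain ⟨b, b', h1, h2, h3, h4, h5, h6⟩ := cross (θ := fun s => (l s).im) (p := 4 * π + π / 2)
    (q := 4 * π - π / 2) hTS (Complex.continuous_im.comp_continuousOn hl) (by linarith)
    (by linarith) (by linarith)
  -- the chord
  have hch : ∀ s ∈ Icc T S, Complex.exp (l s + Real.log (s - t)) = a t - a s := by
    intro s hs
    have hst : 0 < s - t := by linarith [hs.1]
    have e : ((s : ℂ) - t) = ((s - t : ℝ) : ℂ) := by push_cast; ring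
    rw [Complex.exp_add, hle s hs, ← Complex.ofReal_exp, Real.exp_log hst, e]
    have : ((s - t : ℝ) : ℂ) ≠ 0 := by
      rw [Ne, Complex.ofReal_eq_zero]
      exact hst.ne'
    field_simp
  have him : ∀ s : ℝ, (l s + Real.log (s - t)).im = (l s).im := by
    intro s
    simp
  have hbS : b ∈ Icc T S := ⟨h1, h2.trans h3⟩
  have hb'S : b' ∈ Icc T S := ⟨h1.trans h2, h3⟩
  have hsub : Icc b b' ⊆ Icc T S := Icc_subset_Icc h1 h3
  have hcos : ∀ s ∈ Icc b b', 0 ≤ Real.cos (l s).im := by
    intro s hs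
    obtain ⟨g1, g2⟩ := h6 s hs
    have e : Real.cos (l s).im = Real.cos ((l s).im - 2 * (2 * π)) := by
      have := Real.cos_sub_int_mul_two_pi (l s).im 2
      push_cast at this
      exact this.symm
    rw [e]
    exact Real.cos_nonneg_of_mem_Icc ⟨by linarith, by linarith⟩
  have hre : ∀ s ∈ Icc b b', (a s).re ≤ (a t).re := by
    intro s hs
    have g1 := hp_cos (hch s (hsub hs))
    rw [him] at g1
    have g2 := mul_nonneg (Real.exp_pos (l s + Real.log (s - t)).re).le (hcos s hs)
    rw [← g1, Complex.sub_re] at g2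
    linarith
  have hsb : Real.sin (l b).im = 1 := by
    have h4' : (l b).im = 4 * π + π / 2 := h4
    rw [h4', show 4 * π + π / 2 = π / 2 + 2 * (2 * π) by ring]
    have := Real.sin_add_int_mul_two_pi (π / 2) 2
    push_cast at this
    rw [this, Real.sin_pi_div_two]
  have hcb : Real.cos (l b).im = 0 := by
    have h4' : (l b).im = 4 * π + π / 2 := h4
    rw [h4', show 4 * π + π / 2 = π / 2 + 2 * (2 * π) by ring]
    have := Real.cos_add_int_mul_two_pi (π / 2) 2
    push_cast at this
    rw [this, Real.cos_pi_div_two]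
  have hsb' : Real.sin (l b').im = -1 := by
    have h5' : (l b').im = 4 * π - π / 2 := h5
    rw [h5', show 4 * π - π / 2 = -(π / 2) + 2 * (2 * π) by ring]
    have := Real.sin_add_int_mul_two_pi (-(π / 2)) 2
    push_cast at this
    rw [this, Real.sin_neg, Real.sin_pi_div_two]
  have hcb' : Real.cos (l b').im = 0 := by
    have h5' : (l b').im = 4 * π - π / 2 := h5
    rw [h5', show 4 * π - π / 2 = -(π / 2) + 2 * (2 * π) by ring]
    have := Real.cos_add_int_mul_two_pi (-(π / 2)) 2
    push_cast at this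
    rw [this, Real.cos_neg, Real.cos_pi_div_two]
  have eb : (a b).re = (a t).re := by
    have g1 := hp_cos (hch b hbS)
    rw [him, hcb, mul_zero, Complex.sub_re] at g1
    linarith
  have eb' : (a b').re = (a t).re := by
    have g1 := hp_cos (hch b' hb'S)
    rw [him, hcb', mul_zero, Complex.sub_re] at g1
    linarith
  have ib : (a b).im ≤ (a t).im := by
    have g1 := hp_sin (hch b hbS)
    rw [him, hsb, mul_one, Complex.sub_im] at g1
    have := Real.exp_pos (l b + Real.log (b - t)).re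
    linarith
  have ib' : (a t).im ≤ (a b').im := by
    have g1 := hp_sin (hch b' hb'S)
    rw [him, hsb', Complex.sub_im] at g1
    have := Real.exp_pos (l b' + Real.log (b' - t)).re
    linarith
  have hH := hp h2 (ha.mono hsub) eb eb' hre
    (fun s hs s' hs' => hn s (hsub hs) s' (hsub hs'))
  refine ⟨b, hbS, eb, ?_⟩
  rw [abs_le]
  constructor <;> linarith

theorem ret {a l : ℝ → ℂ} {t T S : ℝ} (htT : t < T) (hTS : T ≤ S)
    (ha : ContinuousOn a (Icc T S)) (hl : ContinuousOn l (Icc T S))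
    (hle : ∀ s ∈ Icc T S, Complex.exp (l s) = (a t - a s) / ((s : ℂ) - t))
    (hT : 20 * π ≤ |(l T).im|) (hS : |(l S).im| ≤ 2 * π)
    (hn : ∀ s ∈ Icc T S, ∀ s' ∈ Icc T S, a s - a s' ≠ 2 * π * Complex.I) :
    ∃ b ∈ Icc T S, (a b).re = (a t).re ∧ |(a b).im - (a t).im| ≤ 2 * π := by
  rcases le_total 0 (l T).im with h0 | h0
  · rw [abs_of_nonneg h0] at hT
    exact ret_pos htT hTS ha hl hle hT (le_of_abs_le hS) hn
  · rw [abs_of_nonpos h0] at hT
    obtain ⟨b, hb, h1, h2⟩ := ret_pos (a := fun s => (starRingEnd ℂ) (a s))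
      (l := fun s => (starRingEnd ℂ) (l s)) htT hTS
      (Complex.continuous_conj.comp_continuousOn ha) (Complex.continuous_conj.comp_continuousOn hl)
      (by
        intro s hs
        show Complex.exp ((starRingEnd ℂ) (l s)) = _
        rw [Complex.exp_conj, hle s hs, map_div₀, map_sub, map_sub, Complex.conj_ofReal,
          Complex.conj_ofReal])
      (by
        show 20 * π ≤ ((starRingEnd ℂ) (l T)).im
        rw [Complex.conj_im]
        exact hT)
      (by
        show ((starRingEnd ℂ) (l S)).im ≤ 2 * π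
        rw [Complex.conj_im]
        have := neg_le_of_abs_le hS
        linarith)
      (by
        intro s hs s' hs' h
        have e : (starRingEnd ℂ) ((starRingEnd ℂ) (a s) - (starRingEnd ℂ) (a s')) =
            (starRingEnd ℂ) (2 * π * Complex.I) := by rw [h]
        simp only [map_sub, Complex.conj_conj, map_mul, Complex.conj_I, Complex.conj_ofReal,
          map_ofNat] at e
        refine hn s' hs' s hs ?_
        linear_combination -e)
    refine ⟨b, hb, ?_, ?_⟩
    · simpa using h1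
    · have e : ((starRingEnd ℂ) (a b)).im - ((starRingEnd ℂ) (a t)).im =
          -((a b).im - (a t).im) := by
        rw [Complex.conj_im, Complex.conj_im]
        ring
      rw [e, abs_neg] at h2
      exact h2

end Pool.Agent.Helper97.G4
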